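import Pool.Agent.helper88.RF.SpecW

/-! RF row WSE: separation. -/

set_option autoImplicit false

open Finset

namespace Pool.Agent.RF

theorem WSE_int (n : ℤ) (x : OO) : (n : OO) ∣ x ↔ n ∣ x.re ∧ n ∣ x.im := QuadraticAlgebra.algebraMap_dvd_iff (R := ℤ) (a := 1) (b := 1) (r := n) (z := x)

theorem WSE_nat (n : ℕ) (x : OO) : (n : OO) ∣ x ↔ (n : ℤ) ∣ x.re ∧ (n : ℤ) ∣ x.im := by
  rw [← WSE_int]
  push_cast
  rfl

theorem WSE_star_nat (n : ℕ) : star (n : OO) = (n : OO) := by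
  ext
  · show (n : ℤ) + 1 * 0 = n
    ring
  · show -(0 : ℤ) = 0
    ring

theorem WSE_ph : ph * star ph = -1 := by
  unfold ph
  ext <;> simp <;> rfl

theorem WSE_r5 : r5 * r5 = 5 := by
  unfold r5
  ext
  · rw [QuadraticAlgebra.re_mul]
    rfl
  · rw [QuadraticAlgebra.im_mul]
    rfl

theorem WSE_dt (k k₁ : OO) : k * star k₁ - k₁ * star k = r5 * ((dt k k₁ : ℤ) : OO) := by
  obtain ⟨a, b⟩ := k
  obtain ⟨c, d⟩ := k₁
  unfold dt r5
  ext <;> simp <;> ring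

theorem WSE_FF2 (k a z : OO) : star ph * star (FF k a z) = -(star ph * z) * k ^ 3 + 2 * (-star z) * k ^ 2 * star k - 5 * (-(star ph * star a)) * star k ^ 3 := by
  have h5 : star (5 : OO) = 5 := WSE_star_nat 5
  have h2 : star (2 : OO) = 2 := WSE_star_nat 2
  have h0 : star (FF k a z) = 5 * star a * star k ^ 3 + 2 * ph * star z * star k * k ^ 2 - z * k ^ 3 := by
    unfold FF
    rw [star_sub, star_add]
    simp only [star_mul', star_pow, star_star, h5, h2]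
  rw [h0]
  linear_combination (2 * star z * star k * k ^ 2) * WSE_ph

theorem WSE_cop (h : ℕ) (E : OO) (h0 : h ≠ 0) (H : ∀ p : ℕ, p.Prime → p ∣ h → IsCoprime (p : OO) E) : IsCoprime (h : OO) E := by
  induction h using Nat.recOnMul with
  | zero => exact absurd rfl h0
  | one =>
    rw [Nat.cast_one]
    exact isCoprime_one_left
  | prime p hp => exact H p hp dvd_rfl
  | mul a b iha ihb =>
    rw [Nat.cast_mul]
    exact (iha (fun h => h0 (by rw [h, zero_mul])) fun p hp hpa => H p hp (hpa.mul_right b)).mul_left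
      (ihb (fun h => h0 (by rw [h, mul_zero])) fun p hp hpb => H p hp (hpb.mul_left a))

theorem WSE_dvd_gcd {h D a b : ℤ} (h1 : h ∣ D * a) (h2 : h ∣ D * b) : h ∣ D * (Int.gcd a b : ℤ) := by
  rw [Int.gcd_eq_gcd_ab a b]
  have : D * (a * Int.gcdA a b + b * Int.gcdB a b) = D * a * Int.gcdA a b + D * b * Int.gcdB a b := by ring
  rw [this]
  exact dvd_add (Dvd.dvd.mul_right h1 _) (Dvd.dvd.mul_right h2 _)

theorem WSE_copi {h E : ℤ} (H : ∀ p : ℕ, p.Prime → (p : ℤ) ∣ h → ¬ (p : ℤ) ∣ E) : IsCoprime h E := by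
  rw [Int.isCoprime_iff_gcd_eq_one]
  apply Nat.coprime_of_dvd
  intro p hp h1 h2
  exact H p hp (Int.natCast_dvd.mpr h1) (Int.natCast_dvd.mpr h2)

theorem WSE_sep {R : Type} [CommRing R] (h A A' B X n k n' k' : R) (hc : IsCoprime h (5 * (n * k)))
    (h1 : h ∣ 5 * A * n ^ 3 - 2 * A' * n * k ^ 2 + B * k ^ 3) (h2 : h ∣ A' * n ^ 3 + 2 * B * n ^ 2 * k - 5 * X * k ^ 3)
    (h3 : h ∣ 5 * A * n' ^ 3 - 2 * A' * n' * k' ^ 2 + B * k' ^ 3) (h4 : h ∣ A' * n' ^ 3 + 2 * B * n' ^ 2 * k' - 5 * X * k' ^ 3)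
    (hcE : IsCoprime h ((n * k') ^ 2 + 3 * (n * k') * (n' * k) + (n' * k) ^ 2)) :
    h ∣ (n * k' - n' * k) * A ∧ h ∣ (n * k' - n' * k) * A' ∧ h ∣ (n * k' - n' * k) * B ∧ h ∣ (n * k' - n' * k) * X := by
  have e1 : h ∣ (n * k' - n' * k) * (2 * n * n' * (n * k' + n' * k) * A' - ((n * k') ^ 2 + (n * k') * (n' * k) + (n' * k) ^ 2) * B) := by
    have : (n * k' - n' * k) * (2 * n * n' * (n * k' + n' * k) * A' - ((n * k') ^ 2 + (n * k') * (n' * k) + (n' * k) ^ 2) * B) =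
        n' ^ 3 * (5 * A * n ^ 3 - 2 * A' * n * k ^ 2 + B * k ^ 3) - n ^ 3 * (5 * A * n' ^ 3 - 2 * A' * n' * k' ^ 2 + B * k' ^ 3) := by
      ring
    rw [this]
    exact dvd_sub (Dvd.dvd.mul_left h1 _) (Dvd.dvd.mul_left h3 _)
  have e2 : h ∣ (n * k' - n' * k) * (((n * k') ^ 2 + (n * k') * (n' * k) + (n' * k) ^ 2) * A' + 2 * k * k' * (n * k' + n' * k) * B) := by
    have : (n * k' - n' * k) * (((n * k') ^ 2 + (n * k') * (n' * k) + (n' * k) ^ 2) * A' + 2 * k * k' * (n * k' + n' * k) * B) =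
        k' ^ 3 * (A' * n ^ 3 + 2 * B * n ^ 2 * k - 5 * X * k ^ 3) - k ^ 3 * (A' * n' ^ 3 + 2 * B * n' ^ 2 * k' - 5 * X * k' ^ 3) := by
      ring
    rw [this]
    exact dvd_sub (Dvd.dvd.mul_left h2 _) (Dvd.dvd.mul_left h4 _)
  have e3 : h ∣ (n * k' - n' * k) * A' := by
    refine (hcE.pow_right (n := 2)).dvd_of_dvd_mul_left ?_
    have := dvd_add (Dvd.dvd.mul_left e1 (2 * k * k' * (n * k' + n' * k))) (Dvd.dvd.mul_left e2 ((n * k') ^ 2 + (n * k') * (n' * k) + (n' * k) ^ 2))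
    refine this.trans (dvd_of_eq ?_)
    ring
  have e4 : h ∣ (n * k' - n' * k) * B := by
    refine (hcE.pow_right (n := 2)).dvd_of_dvd_mul_left ?_
    have := dvd_sub (Dvd.dvd.mul_left e2 (2 * n * n' * (n * k' + n' * k))) (Dvd.dvd.mul_left e1 ((n * k') ^ 2 + (n * k') * (n' * k) + (n' * k) ^ 2))
    refine this.trans (dvd_of_eq ?_)
    ring
  have c5 : IsCoprime h 5 := hc.of_mul_right_left
  have cn : IsCoprime h n := hc.of_mul_right_right.of_mul_right_left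
  have ck : IsCoprime h k := hc.of_mul_right_right.of_mul_right_right
  refine ⟨?_, e3, e4, ?_⟩
  · refine (c5.mul_right (cn.pow_right (n := 3))).dvd_of_dvd_mul_left ?_
    have := dvd_sub (dvd_add (Dvd.dvd.mul_left h1 (n * k' - n' * k)) (Dvd.dvd.mul_left e3 (2 * n * k ^ 2))) (Dvd.dvd.mul_left e4 (k ^ 3))
    refine this.trans (dvd_of_eq ?_)
    ring
  · refine (c5.mul_right (ck.pow_right (n := 3))).dvd_of_dvd_mul_left ?_
    have := dvd_sub (dvd_add (Dvd.dvd.mul_left e3 (n ^ 3)) (Dvd.dvd.mul_left e4 (2 * n ^ 2 * k))) (Dvd.dvd.mul_left h2 (n * k' - n' * k))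
    refine this.trans (dvd_of_eq ?_)
    ring

theorem WSE_proof : WSE_stmt := by
  intro h a z k k₁ hc hc1 h1 h3 hp hg
  have hF : ∀ κ : OO, (h : OO) ∣ FF κ a z → (h : OO) ∣ 5 * a * κ ^ 3 - 2 * (-(star ph * z)) * κ * star κ ^ 2 + (-star z) * star κ ^ 3 ∧
      (h : OO) ∣ -(star ph * z) * κ ^ 3 + 2 * (-star z) * κ ^ 2 * star κ - 5 * (-(star ph * star a)) * star κ ^ 3 := by
    intro κ hκ
    constructor
    · refine hκ.trans (dvd_of_eq ?_)
      unfold FF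
      ring
    · rw [← WSE_FF2]
      refine Dvd.dvd.mul_left ?_ _
      obtain ⟨c, hc⟩ := hκ
      refine ⟨star c, ?_⟩
      rw [hc, star_mul', WSE_star_nat]
  have h0 : h ≠ 0 := by
    rintro rfl
    rw [Nat.cast_zero, isCoprime_zero_left] at hc
    have h5 : IsUnit (5 : OO) := isUnit_of_mul_isUnit_left hc
    have h6 : ((5 : ℕ) : OO) ∣ 1 := h5.dvd
    rw [WSE_nat] at h6
    have h7 : ((5 : ℕ) : ℤ) ∣ 1 := h6.1
    norm_num at h7
  have hD := WSE_dt k k₁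
  have hE : IsCoprime (h : OO) ((k * star k₁) ^ 2 + 3 * (k * star k₁) * (k₁ * star k) + (k₁ * star k) ^ 2) := by
    refine WSE_cop h _ h0 fun p hpp hph => ?_
    have hd : (p : OO) ∣ (h : OO) := Nat.cast_dvd_cast hph
    have g1 : IsCoprime (p : OO) (5 * (k * star k)) := hc.of_isCoprime_of_dvd_left hd
    have g2 : IsCoprime (p : OO) (5 * (k₁ * star k₁)) := hc1.of_isCoprime_of_dvd_left hd
    have g3 : IsCoprime (p : OO) (5 * ((k * star k₁) * (k₁ * star k))) := by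
      have g4 := g1.mul_right g2.of_mul_right_right
      have g5 : 5 * (k * star k) * (k₁ * star k₁) = 5 * ((k * star k₁) * (k₁ * star k)) := by ring
      rwa [g5] at g4
    obtain ⟨c, hc'⟩ := hp p hpp hph
    have g6 : (k * star k₁) ^ 2 + 3 * (k * star k₁) * (k₁ * star k) + (k₁ * star k) ^ 2 =
        5 * ((k * star k₁) * (k₁ * star k)) + (p : OO) * (r5 * (c : OO) * (r5 * ((dt k k₁ : ℤ) : OO))) := by
      have g7 : ((dt k k₁ : ℤ) : OO) = (p : OO) * (c : OO) := by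
        rw [hc']
        push_cast
        rfl
      have g8 : (p : OO) * (r5 * (c : OO) * (r5 * ((dt k k₁ : ℤ) : OO))) = (r5 * ((dt k k₁ : ℤ) : OO)) * (r5 * ((dt k k₁ : ℤ) : OO)) := by
        rw [g7]
        ring
      rw [g8, ← hD]
      ring
    rw [g6]
    exact g3.add_mul_left_right _
  obtain ⟨dA, dA', dB, -⟩ := WSE_sep (h : OO) a (-(star ph * z)) (-star z) (-(star ph * star a)) k (star k) k₁ (star k₁) hc
    (hF k h1).1 (hF k h1).2 (hF k₁ h3).1 (hF k₁ h3).2 hE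
  rw [hD] at dA dA'
  have c5 : IsCoprime (h : OO) 5 := hc.of_mul_right_left
  have cr : IsCoprime (h : OO) r5 := by
    rw [← WSE_r5] at c5
    exact c5.of_mul_right_left
  have fa : (h : OO) ∣ ((dt k k₁ : ℤ) : OO) * a := by
    rw [mul_assoc] at dA
    exact cr.dvd_of_dvd_mul_left dA
  have fz : (h : OO) ∣ ((dt k k₁ : ℤ) : OO) * z := by
    rw [mul_assoc] at dA'
    have f1 := (cr.dvd_of_dvd_mul_left dA').mul_left ph
    refine f1.trans (dvd_of_eq ?_)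
    linear_combination (-((dt k k₁ : ℤ) : OO) * z) * WSE_ph
  rw [WSE_nat] at fa fz
  have fa1 : (h : ℤ) ∣ dt k k₁ * a.re := by
    refine fa.1.trans (dvd_of_eq ?_)
    simp
  have fa2 : (h : ℤ) ∣ dt k k₁ * a.im := by
    refine fa.2.trans (dvd_of_eq ?_)
    simp
  have fz1 : (h : ℤ) ∣ dt k k₁ * z.re := by
    refine fz.1.trans (dvd_of_eq ?_)
    simp
  have fz2 : (h : ℤ) ∣ dt k k₁ * z.im := by
    refine fz.2.trans (dvd_of_eq ?_)
    simp
  have e7 := WSE_dvd_gcd (WSE_dvd_gcd fa1 fa2) (WSE_dvd_gcd fz1 fz2)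
  have hcop : IsCoprime (h : ℤ) ((Int.gcd (Int.gcd a.re a.im : ℤ) (Int.gcd z.re z.im : ℤ) : ℕ) : ℤ) := by
    apply WSE_copi
    intro p hpp hph hpd
    have g1 := dvd_trans hpd (Int.gcd_dvd_left _ _)
    have g2 := dvd_trans hpd (Int.gcd_dvd_right _ _)
    exact hg p hpp (Int.natCast_dvd_natCast.1 hph) ⟨(WSE_nat p a).2 ⟨dvd_trans g1 (Int.gcd_dvd_left _ _), dvd_trans g1 (Int.gcd_dvd_right _ _)⟩,
      (WSE_nat p z).2 ⟨dvd_trans g2 (Int.gcd_dvd_left _ _), dvd_trans g2 (Int.gcd_dvd_right _ _)⟩⟩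
  exact hcop.dvd_of_dvd_mul_right e7

end Pool.Agent.RF
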